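import Mathlib
import Pool.Agent.Lib_helper97.KT.Fin

set_option autoImplicit false

open scoped FourierTransform

namespace Pool.Agent.Results.MP_a65497_an.KThreeEvenDim

/-- For every even `d ≥ 20` the pair `(d, 3)` has the uniqueness property, even without using the
node `0`: a radial Schwartz function on `ℝ^d` such that it and its Fourier transform vanish to
third order at all radii `√(3n)`, `n ≥ 1`, is identically zero. -/
theorem result :
    ∀ (d : ℕ) (hd : 20 ≤ d), Even d →
    ∀ f : SchwartzMap (EuclideanSpace ℝ (Fin d)) ℂ,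
      (∀ x y : EuclideanSpace ℝ (Fin d), ‖x‖ = ‖y‖ → f x = f y) →
      (∀ n : ℕ, 1 ≤ n → ∀ j : ℕ, j < 3 →
        iteratedDeriv j
            (fun t : ℝ => f (t • EuclideanSpace.single
              (⟨0, Nat.lt_of_lt_of_le (Nat.succ_pos 19) hd⟩ : Fin d) (1 : ℝ)))
            (Real.sqrt ((3 : ℝ) * (n : ℝ))) = 0 ∧
        iteratedDeriv j
            (fun t : ℝ => (𝓕 (f : EuclideanSpace ℝ (Fin d) → ℂ))
              (t • EuclideanSpace.single
                (⟨0, Nat.lt_of_lt_of_le (Nat.succ_pos 19) hd⟩ : Fin d) (1 : ℝ)))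
            (Real.sqrt ((3 : ℝ) * (n : ℝ))) = 0) →
      f = 0 := by
  intro d hd hev f hf h
  obtain ⟨κ, hκ⟩ := hev
  set e := EuclideanSpace.single
    (⟨0, Nat.lt_of_lt_of_le (Nat.succ_pos 19) hd⟩ : Fin d) (1 : ℝ) with he
  have hn : ‖e‖ = 1 := by simp [he]
  refine Pool.Agent.KT97.uniq3 κ (by omega) (by omega) f hf e hn ?_ ?_
  · intro n hn i hi
    have := (h n hn i hi).1
    rw [Nat.cast_ofNat]
    exact this
  · intro n hn i hi
    have := (h n hn i hi).2
    rw [Nat.cast_ofNat]
    exact this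

end Pool.Agent.Results.MP_a65497_an.KThreeEvenDim
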