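import Mathlib
import Pool.Agent.Lib_helper97.K2P.Uni
import Pool.Agent.Lib_helper68.KTwoE

/-!
# Uniqueness from second order vanishing at the radii `√(2n)`, in every dimension

For every `d ≥ 1` a radial Schwartz function on `ℝ^d` which vanishes, together with its Fourier
transform, to second order at all radii `√(2n)`, `n ≥ 0`, is identically zero.  For `d ≥ 9` the
conditions at `n = 0` are not needed.
-/

set_option autoImplicit false

open scoped FourierTransform

namespace Pool.Agent.Results.MP_a65497_an.KTwoAllDimensions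

/-- For every `d ≥ 1` the pair `(d, 2)` has the uniqueness property; for `d ≥ 9` the conditions at
the radius `0` are not needed. -/
theorem result :
    ∀ (d : ℕ) (hd : 0 < d),
    ∀ f : SchwartzMap (EuclideanSpace ℝ (Fin d)) ℂ,
      (∀ x y : EuclideanSpace ℝ (Fin d), ‖x‖ = ‖y‖ → f x = f y) →
      (∀ n : ℕ, (9 ≤ d → 1 ≤ n) → ∀ j : ℕ, j < 2 →
        iteratedDeriv j
            (fun t : ℝ => f (t • EuclideanSpace.single (⟨0, hd⟩ : Fin d) (1 : ℝ)))
            (Real.sqrt ((2 : ℝ) * (n : ℝ))) = 0 ∧
        iteratedDeriv j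
            (fun t : ℝ => (𝓕 (f : EuclideanSpace ℝ (Fin d) → ℂ))
              (t • EuclideanSpace.single (⟨0, hd⟩ : Fin d) (1 : ℝ)))
            (Real.sqrt ((2 : ℝ) * (n : ℝ))) = 0) →
      f = 0 := by
  intro d hd f hf h
  set e := EuclideanSpace.single (⟨0, hd⟩ : Fin d) (1 : ℝ) with he
  have hn : ‖e‖ = 1 := by simp [he]
  rcases Nat.lt_or_ge d 9 with hd9 | hd9
  · exact Pool.Agent.K2P.unique_two hd f hf e hn fun n j hj => h n (by omega) j hj
  · refine Pool.Agent.H68.uniqueness_k_two hd9 f hf e hn ?_ ?_ ?_ ?_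
    · intro n hn
      simpa using (h n (fun _ => hn) 0 (by norm_num)).1
    · intro n hn
      simpa [iteratedDeriv_one] using (h n (fun _ => hn) 1 (by norm_num)).1
    · intro n hn
      simpa using (h n (fun _ => hn) 0 (by norm_num)).2
    · intro n hn
      simpa [iteratedDeriv_one] using (h n (fun _ => hn) 1 (by norm_num)).2

end Pool.Agent.Results.MP_a65497_an.KTwoAllDimensions
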