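import Pool.Agent.Lib_helper71.SX.Van

/-!
# Uniqueness from k-fold vanishing at the radii `√(kn)` in the class `O(exp (-c |x| ^ α))`, `α > 1`

For all `d, k ≥ 1` and every `n₀`: if `f` is a radial Schwartz function on `ℝ^d`, `f` or its Fourier
transform is `O(exp (-c |x| ^ α))` for some `c > 0` and some `α > 1` (the other one is only
Schwartz), and the radial derivatives of order `0, ..., k - 1` of `f` and of its Fourier transform
vanish at `√(kn)` for all `n ≥ n₀`, then `f = 0`.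

Proof.  Write `f₁ = f`, `f₂ = f^`.

(0) The decay of `f` passes to `f^` (with `c / 2`, for `α < 2`): a bound
`M (1 + |x|)^(-d-1) exp (-l |x|^p)` for `f` gives for the quotient of the entire radial Fourier
transform by `cos (π (ζ^2 - σ) / k)^k`, at the point `r₀`, a bound `C M exp (-l r₀^p - ...)`, by the
maximum principle in a trapezoid.

(1) Now both decay faster than all exponentials.  Let `H_i` be the entire function with
`H_i(|x|) = f_i(x)`; it is `O(L(2 π |Im ζ|))`, `L(P) = ∫ (|f₁| + |f₂|) exp (P |x|)`.  The quotient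
`G_i(ζ) = H_i(ζ) / cos (π (ζ^2 - σ) / k)^k`, `σ = k n₀ - k / 2`, is holomorphic in `Re ζ ≥ R` and
`O(L(P) exp (-P Re ζ))` on `2 π |Im ζ| = P` (also on `2 π |Im ζ| ≤ P`, by Phragmen-Lindelof, with
`L(P) + exp (P R)` in place of `L(P)`).  Hence
`f_i(x) = ∑_j c_j exp (π i θ_j |x|^2) G_i(|x|)` for `|x| > R`, `θ_j = (2 j - k) / k`.

(2) The Fresnel identity `∫ exp (-2 π i ρ ⟨x, e⟩ - π i |x|^2) f^(x) dx = q(ρ) ∫ exp (-2 π i ρ
⟨x, e⟩ + π i |x|^2) f(x) dx`, `q(ρ) = exp (-π i d / 4 + π i ρ^2)`, holds for all complex `ρ`.  The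
term of `f` with the opposite chirp gives the (cut off) Fourier transform `Y_i(ρ)` of `G_i(|x|)`, the
other terms are small: shift the contour in the radial variable to `|Im ζ| = h`, `P = 2 π h`,
`|Im ρ| ≤ h`.  So `(1 - q(ρ)^2) Y_i(ρ)` is bounded by `exp (O(P)) + L(P) exp (-κ P)`.  If
`h^2 + d / 4` is in `1 / 2 + ℤ` then `|1 - q^2| ≥ (1 + |q|^2) / 2` on `Im ρ = h`, and the bound
extends to `|Im ρ| ≤ h` by evenness and the maximum principle.

(3) A radial function with `|Y(ρ)| ≤ E` in the strip `|Im ρ| ≤ h` has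
`|𝓕(exp (P ⟨x, e⟩) g)| ≤ E` on `ℝ^d`; convolution with a Gaussian of width `exp (-2 P)` gives
`|G_i(r)| exp (P r) ≤ exp (2 d P) E + small * L(P)` for `r ≥ R + 1`, so
`L(P) ≤ exp (O(P)) + L(P) / 2`, `L(P) ≤ exp (K P)`, for a sequence `P → ∞`.  Hence `f` has compact
support, and being a Fourier transform of a function with the same decay it is zero.
-/

namespace Pool.Agent.Results.MP_a65497_an.SuperExponentialClass

open scoped FourierTransform

theorem result :
  ∀ (d : ℕ) (hd : 0 < d) (k : ℕ), 0 < k → ∀ n₀ : ℕ,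
  ∀ f : SchwartzMap (EuclideanSpace ℝ (Fin d)) ℂ,
    (∀ x y : EuclideanSpace ℝ (Fin d), ‖x‖ = ‖y‖ → f x = f y) →
    (∃ α C c : ℝ, 1 < α ∧ 0 < c ∧
      ((∀ x : EuclideanSpace ℝ (Fin d), ‖f x‖ ≤ C * Real.exp (-(c * ‖x‖ ^ α))) ∨
      (∀ x : EuclideanSpace ℝ (Fin d),
        ‖(𝓕 (f : EuclideanSpace ℝ (Fin d) → ℂ)) x‖ ≤ C * Real.exp (-(c * ‖x‖ ^ α))))) →
    (∀ n : ℕ, n₀ ≤ n → ∀ j : ℕ, j < k →
      iteratedDeriv j
          (fun t : ℝ => f (t • EuclideanSpace.single (⟨0, hd⟩ : Fin d) (1 : ℝ)))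
          (Real.sqrt ((k : ℝ) * (n : ℝ))) = 0 ∧
      iteratedDeriv j
          (fun t : ℝ => (𝓕 (f : EuclideanSpace ℝ (Fin d) → ℂ))
            (t • EuclideanSpace.single (⟨0, hd⟩ : Fin d) (1 : ℝ)))
          (Real.sqrt ((k : ℝ) * (n : ℝ))) = 0) →
    f = 0 := by
  intro d hd k hk n₀ f hr hdec hz
  obtain ⟨α, C, c, hα, hc, hdec⟩ := hdec
  have he : ‖EuclideanSpace.single (⟨0, hd⟩ : Fin d) (1 : ℝ)‖ = 1 := by simp
  rcases hdec with h | h
  · exact Pool.Agent.SX.super_exp_class he hk f hr (n₀ := n₀)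
      (fun n hn j hj => (hz n hn j hj).1) (fun n hn j hj => (hz n hn j hj).2) hα hc h
  · have hr2 : Pool.Agent.GU.Rad (f : EuclideanSpace ℝ (Fin d) → ℂ) := hr
    have hff := Pool.Agent.GU.fourier_fourier hr2
    have h1 : (𝓕 f : SchwartzMap (EuclideanSpace ℝ (Fin d)) ℂ) = 0 := by
      refine Pool.Agent.SX.super_exp_class he hk (𝓕 f) (n₀ := n₀) ?_ ?_ ?_ hα hc (C := C) ?_
      · rw [SchwartzMap.fourier_coe]
        exact Pool.Agent.GU.rad_fourier hr2
      · rw [SchwartzMap.fourier_coe]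
        exact fun n hn j hj => (hz n hn j hj).2
      · rw [← SchwartzMap.fourier_coe, hff]
        exact fun n hn j hj => (hz n hn j hj).1
      · rw [SchwartzMap.fourier_coe]
        exact h
    rw [← hff, h1]
    ext x
    rw [SchwartzMap.fourier_coe, Real.fourier_eq]
    simp

end Pool.Agent.Results.MP_a65497_an.SuperExponentialClass
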